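import Pool.Agent.V60.CMin.Core

/-!
# Closed subgroups of (totally minimal abelian) × compact
-/

namespace Pool.Agent.Results.MP_35204b_gt.CTotallyMinimalProduct

open Pool.Agent.V60.CMin

universe u v

/-- If the abelian group `A` is totally minimal and `K` is a compact group, then `A × K` is c-totally
minimal. -/
theorem result (A : Type u) (K : Type v) [CommGroup A] [TopologicalSpace A]
    [IsTopologicalGroup A] [T2Space A] [Group K] [TopologicalSpace K] [IsTopologicalGroup K]
    [T2Space K] [CompactSpace K] :
    TotallyMinimal A → CTotallyMinimal (A × K) :=
  (both A K).2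

end Pool.Agent.Results.MP_35204b_gt.CTotallyMinimalProduct
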